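import Pool.Agent.SQG.Main6
import Pool.Agent.SQG.Reg
import Pool.Agent.SQG.Der
import Pool.Agent.SQG.Ga
import Pool.Agent.SQG.Gb
import Pool.Agent.SQG.Lb0
import Pool.Agent.SQG.Ub2
import Pool.Agent.SQG.Pow
import Pool.Agent.SQG.Rfl
import Pool.Agent.SQG.Tc3
import Pool.Agent.SQG.Fo3
import Pool.Agent.SQG.Nm5
import Pool.Agent.SQG.St5
import Pool.Agent.SQG.Is5
import Pool.Agent.SQG.Tci
import Pool.Agent.SQG.Foi
import Pool.Agent.SQG.Rfi
import Pool.Agent.SQG.St6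
import Pool.Agent.SQG.Ct2
import Pool.Agent.SQG.Ma6

/-!
# MP_0cce92_an: no blow-up in the critical directional classes

A smooth bounded solution of the supercritical SQG equation (`0 < α < 1/2`) on `(0,T)` whose increments in ONE
direction `e` are at most `m(t) |a|^{1-2α+2α/r} + ε₀ κ |a|^{1-2α}` for small `a`, where `m` belongs to `L^r(0,T)`,
`1 < r < ∞`, and `ε₀ = ε₀(α) > 0`, is bounded in the isotropic Hölder space `C^{1-α}` up to time `T`. Both classes are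
invariant under the scaling of the equation.

Method: a two-point maximum principle with the anisotropic modulus
`η |h₂|^β + n |h₂|^β' + 2 ε h₁² |h₂|^{β-2} + η (|h₁|-|h₂|)₊^{2m} |h₂|^{β-2m}`, `β = 1 - 2α < β' = 1 - α` (`e` = first coordinate
direction), the dissipation being bounded below by a reflection coupling of Gaussian averages; then a second one with the
isotropic modulus `N |h|^β'`.
-/

set_option autoImplicit false

open MeasureTheory Set

namespace Pool.Agent.Results.MP_0cce92_an.CriticalDirectional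

open Pool.Agent.SQG

/-- Regularity criterion in one direction, in the critical classes, for the supercritical SQG equation. -/
theorem result : ∀ α : ℝ, 0 < α → α < 1 / 2 → ∃ ε₀ : ℝ, 0 < ε₀ ∧
    ∀ (κ T : ℝ) (θ : ℝ → P2 → ℝ) (φ : ℝ → P2 → ℂ), 0 < κ → 0 < T → Sol α κ T θ φ →
    ∀ (M₀ r ρ₀ : ℝ) (e : P2) (m : ℝ → ℝ), (∀ t ∈ Ioo 0 T, ∀ x, |θ t x| ≤ M₀) →
    e.1 ^ 2 + e.2 ^ 2 = 1 → 1 < r → 0 < ρ₀ →
    (∀ t ∈ Ioo 0 T, 0 ≤ m t ∧ ∀ (x : P2) (a : ℝ), |a| ≤ ρ₀ →
      |θ t (x.1 + a * e.1, x.2 + a * e.2) - θ t x| ≤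
        m t * |a| ^ (1 - 2 * α + 2 * α / r) + ε₀ * κ * |a| ^ (1 - 2 * α)) →
    IntegrableOn (fun t => m t ^ r) (Ioo 0 T) →
    ∀ t₀ ∈ Ioo 0 T, ∃ C, ∀ t ∈ Ico t₀ T, ∀ x y : P2,
      |θ t x - θ t y| ≤ C * nm (x - y) ^ (1 - α) :=
  main6 rot (ma6 reg ct2
    (st5 reg (ub2 gb der) (rfl6 ga der pow) (lb0 ga der) tc3 (fo3 reg der) nm5)
    is5
    (st6 reg (ub2 gb der) (rfi (rfl6 ga der pow)) tci (foi reg der)))

end Pool.Agent.Results.MP_0cce92_an.CriticalDirectional
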