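import Pool.Agent.SQG.Main8
import Pool.Agent.SQG.Reg
import Pool.Agent.SQG.Der
import Pool.Agent.SQG.Ga
import Pool.Agent.SQG.Gb
import Pool.Agent.SQG.Eb
import Pool.Agent.SQG.Ub
import Pool.Agent.SQG.Pow
import Pool.Agent.SQG.Rfl
import Pool.Agent.SQG.Rfi
import Pool.Agent.SQG.Rot
import Pool.Agent.SQG.Mj8
import Pool.Agent.SQG.Tc8
import Pool.Agent.SQG.Fo8
import Pool.Agent.SQG.Va8
import Pool.Agent.SQG.Vd8
import Pool.Agent.SQG.Ve8
import Pool.Agent.SQG.Fb8
import Pool.Agent.SQG.Di8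
import Pool.Agent.SQG.Rt8
import Pool.Agent.SQG.Nm8
import Pool.Agent.SQG.Sv8
import Pool.Agent.SQG.Ma8

/-!
# MP_0cce92_an: the direction of the gradient

Let `0 < α < 1/2`, `0 ≤ δ < 1 - 2α`. A smooth bounded solution of the supercritical SQG equation on `(0,T)` of class `C^δ` up to time `T`
(for `δ = 0` this is boundedness) does not blow up at `T` if the DIRECTION of its gradient, where the gradient is large, is Hölder continuous with
exponent `1 - 2α - δ` and a small coefficient, or with exponent `1 - 2α - δ + 2α/r` and a coefficient in `L^r(0,T)`, `1 < r < ∞`.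

Method: a two-point maximum principle with the isotropic modulus `N(t) |h|^{1-α}`. At a touching point the gradient is large and parallel to
`h`. In a neighbourhood the function is almost monotone in the direction of its gradient, so the integral of the length of the gradient over a square of
side `s` is at most `C A s^{1+δ}`, and this controls the component of the velocity increment in the direction of `h`.
-/

set_option autoImplicit false

open MeasureTheory Set

namespace Pool.Agent.Results.MP_0cce92_an.GradientDirection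

open Pool.Agent.SQG

/-- Regularity criterion in terms of the direction of the gradient, for the supercritical SQG equation. -/
theorem result : ∀ α δ : ℝ, 0 < α → α < 1 / 2 → 0 ≤ δ → δ < 1 - 2 * α → ∃ ε₀ : ℝ, 0 < ε₀ ∧
    ∀ (κ T : ℝ) (θ : ℝ → P2 → ℝ) (φ : ℝ → P2 → ℂ), 0 < κ → 0 < T → Sol α κ T θ φ →
    ∀ (M A r ρ K : ℝ) (m : ℝ → ℝ), (∀ t ∈ Ioo 0 T, ∀ x, |θ t x| ≤ M) → 0 < A →
    (∀ t ∈ Ioo 0 T, ∀ x y : P2, |θ t x - θ t y| ≤ A * nm (x - y) ^ δ) → 1 < r → 0 < ρ → 0 ≤ K →
    (∀ t ∈ Ioo 0 T, 0 ≤ m t) → IntegrableOn (fun t => m t ^ r) (Ioo 0 T) →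
    (∀ t ∈ Ioo 0 T, ∀ x y : P2, nm (x - y) ≤ ρ → K < nm (gd (θ t) x) → K < nm (gd (θ t) y) →
      nm (dir (gd (θ t) x) - dir (gd (θ t) y)) ≤
        m t * nm (x - y) ^ (1 - 2 * α - δ + 2 * α / r) +
          ε₀ * κ / A * nm (x - y) ^ (1 - 2 * α - δ)) →
    ∀ t₀ ∈ Ioo 0 T, ∃ C, ∀ t ∈ Ico t₀ T, ∀ x y : P2,
      |θ t x - θ t y| ≤ C * nm (x - y) ^ (1 - α) :=
  main8 reg der (ma8 reg rot (rfi (rfl6 ga der pow)) mj8 tc8 (fo8 reg der) rt8
    (sv8 (ub gb (eb der)) (ve8 der gb (eb der) (va8 der) (vd8 der)) (di8 (fb8 der)) nm8))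

end Pool.Agent.Results.MP_0cce92_an.GradientDirection
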