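import Pool.Agent.SQG.Main7
import Pool.Agent.SQG.Reg
import Pool.Agent.SQG.Der
import Pool.Agent.SQG.Ga
import Pool.Agent.SQG.Gb
import Pool.Agent.SQG.Ub2
import Pool.Agent.SQG.Pow
import Pool.Agent.SQG.Rfl
import Pool.Agent.SQG.Rg7
import Pool.Agent.SQG.Mx7
import Pool.Agent.SQG.Rd7
import Pool.Agent.SQG.Rw7
import Pool.Agent.SQG.Tc7
import Pool.Agent.SQG.Fd7
import Pool.Agent.SQG.Fi7
import Pool.Agent.SQG.Sd7
import Pool.Agent.SQG.Al7
import Pool.Agent.SQG.Ni7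
import Pool.Agent.SQG.Si7
import Pool.Agent.SQG.Ma7

/-!
# MP_0cce92_an: no blow-up for large, nearly one-dimensional data

A smooth solution of the supercritical SQG equation (`0 < α < 1/2`) on `(0,T)` which at ONE time `t₀` satisfies
`|θ| ≤ M`, `|∇θ| ≤ M` and, for ONE unit vector `e`, `|θ(x + a e) - θ(x)| ≤ ε (1 + |a|)`, `ε = ε(α,κ,M) > 0`, satisfies
`|∇θ(t)| ≤ 6 M (1 + c κ (t - t₀))^{-1/(2α)}` for all `t ∈ [t₀,T)`.

Method: a two-point maximum principle with two moduli at the same time: Hölder increments in the direction `e`, which stay tiny,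
and a Lipschitz type isotropic modulus with a growing scale.
-/

set_option autoImplicit false

open MeasureTheory Set

namespace Pool.Agent.Results.MP_0cce92_an.NearlyOneDimensional

open Pool.Agent.SQG

/-- No blow-up for large, nearly one-dimensional data of the supercritical SQG equation. -/
theorem result : ∀ α : ℝ, 0 < α → α < 1 / 2 → ∃ c : ℝ, 0 < c ∧
    ∀ κ M : ℝ, 0 < κ → 0 < M → ∃ ε : ℝ, 0 < ε ∧
    ∀ (T : ℝ) (θ : ℝ → P2 → ℝ) (φ : ℝ → P2 → ℂ) (t₀ : ℝ) (e : P2), Sol α κ T θ φ → 0 < t₀ → t₀ < T →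
    (∀ x, |θ t₀ x| ≤ M) → (∀ x y : P2, |θ t₀ x - θ t₀ y| ≤ M * nm (x - y)) →
    e.1 ^ 2 + e.2 ^ 2 = 1 →
    (∀ (x : P2) (a : ℝ), |θ t₀ (x.1 + a * e.1, x.2 + a * e.2) - θ t₀ x| ≤ ε * (1 + |a|)) →
    ∀ t ∈ Ico t₀ T, ∀ x y : P2,
      |θ t x - θ t y| ≤ 6 * M * (1 + c * κ * (t - t₀)) ^ (-(1 / (2 * α))) * nm (x - y) :=
  main7 rot (ma7 (mx7 reg der (ga)) (tc7 reg rg7)
    (sd7 reg (ub2 gb der) (rd7 (rfl6 ga der pow)) (fd7 reg der))
    (si7 reg (ub2 gb der) (rw7 ga der) (fi7 reg der) al7 ni7))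

end Pool.Agent.Results.MP_0cce92_an.NearlyOneDimensional
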